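import Pool.Agent.J6H32.SR.Quad2

/-!
# Stark units over real quadratic fields and the prime ideals with given Artin symbols

Let `K` be a real quadratic field, `𝔪 ≠ 𝓞 K` a nonzero ideal, `H / K` a finite abelian extension with
Galois group `G` which is unramified outside `𝔪` and infinity, for example the ray class field of `𝔪 ∞₂`,
and `φ : H → ℝ` an embedding; `∞₁` is its restriction to `K`.

`StarkUnits D φ ε` are the conditions 1, 2, 3 of Q1 for the family `ε`. `SquareUnits` is Q1 with the
additional condition that all the products `ε ρ * ε ρ'` are squares in `H`; in other words, all the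
`H (ε ρ ^ (1/2))` are the same extension of `H` and Galois over `K`. The strengthened form of Q1 asks that
the `H (ε ρ ^ (1/2)) / K` are abelian. `StarkAt 𝔭` is the version for a prime ideal `𝔭`: a unit
`x ≡ 1` modulo all prime ideals over `𝔭` whose absolute values are given by the derivatives at `s = 0` of
the functions `ζ (s, ρ) - N𝔭^(1-s) ζ (s, σ_𝔭⁻¹ ρ)`.

For `σ` in `G` let `d σ` be the density, among the prime ideals with the Artin symbol `σ`, of the prime
ideals `𝔭` for which `StarkAt 𝔭` is true.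

Theorem. The `d σ` exist. Let `S` be a nonempty subset of `G` such that the Sylow 2-subgroup of
`G / ⟨S⟩` is cyclic, for example `S = {1}` for a cyclic group `G`. Then the strengthened form of Q1 is
true if and only if `d σ > 1/2` for all `σ` in `S`. For all `G` the condition `d 1 > 1/2` is equivalent
to `SquareUnits`. If not all `d σ` are zero, then there are a positive integer `n` and a subgroup `B` of
`G` with `d σ = 1/n` for all `σ` in `B` and `d σ = 0` for all other `σ`.
-/

set_option autoImplicit false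

open NumberField IsDedekindDomain Filter Topology

namespace Pool.Agent.Results.MP_343f43_nt.ArtinClasses

open Pool.Agent.J6H32.SR

/-- `K` is a real quadratic field. -/
def RealQuadratic (K : Type) [Field K] [NumberField K] : Prop :=
  Module.finrank ℚ K = 2 ∧ InfinitePlace.nrRealPlaces K = 2

/-- The strengthened form of Q1: there are Stark units `ε ρ` for which the extensions
`H (ε ρ ^ (1/2)) / K` are abelian. -/
def Strengthened {K H G : Type} [Field K] [NumberField K] [Field H] [NumberField H] [Algebra K H]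
    [CommGroup G] [MulSemiringAction G H] {𝔪 : Ideal (𝓞 K)} (D : ZetaData K H G 𝔪)
    (φ : H →+* ℝ) : Prop :=
  ∃ ε : G → (𝓞 H)ˣ, StarkUnits D φ ε ∧ ∀ ρ : G, AbelianRoot K ((ε ρ : 𝓞 H) : H) 2

theorem result (K H G : Type) [Field K] [NumberField K] [Field H] [NumberField H] [Algebra K H]
    [CommGroup G] [Finite G] [MulSemiringAction G H] [IsGaloisGroup G K H] (_hK : RealQuadratic K)
    (𝔪 : Ideal (𝓞 K)) (h𝔪 : 𝔪 ≠ ⊥) (_h𝔪' : 𝔪 ≠ ⊤) (D : ZetaData K H G 𝔪) (φ : H →+* ℝ) :
    ∃ d : G → ℝ,
      -- the densities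
      (∀ σ : G, Tendsto (proportionIn (D.Symbol σ) (D.StarkAt (plc φ))) atTop (𝓝 (d σ))) ∧
      -- the cyclic case
      (IsCyclic G → (Strengthened D φ ↔ 1 / 2 < d 1)) ∧
      -- a few Artin symbols are enough
      (∀ S : Set G, S.Nonempty → (∀ P : Sylow 2 (G ⧸ Subgroup.closure S), IsCyclic P) →
        (Strengthened D φ ↔ ∀ σ ∈ S, 1 / 2 < d σ)) ∧
      -- the products of the Stark units
      (SquareUnits D φ ↔ 1 / 2 < d 1) ∧
      -- the values
      ((∀ σ : G, d σ = 0) ∨ ∃ (B : Subgroup G) (n : ℕ), 0 < n ∧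
        (∀ σ ∈ B, d σ = 1 / n) ∧ ∀ σ : G, σ ∉ B → d σ = 0) := by
  have hfin : {𝔭 : HeightOneSpectrum (𝓞 K) | 𝔪 ≤ 𝔭.asIdeal}.Finite := by
    refine (Ideal.finite_factors h𝔪).subset ?_
    intro 𝔭 h𝔭
    exact Ideal.dvd_iff_le.2 h𝔭
  have hS : Strengthened D φ ↔ SK K (fun ρ : G => deriv (D.zeta ρ) 0) (plc φ) := tate_iff D h𝔪 φ
  have hSq : SquareUnits D φ ↔ SP K (fun ρ : G => deriv (D.zeta ρ) 0) (plc φ) := square_iff D φ
  obtain ⟨d, h1, h2, h3, h4⟩ := class_main (K := K) (fun ρ : G => deriv (D.zeta ρ) 0) (plc φ)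
    hfin.toFinset (fun v hv => D.unramified v (by simpa using hv)) (fun v => D.art v.asIdeal)
    (fun v hv => D.art_frob v (by simpa using hv)) D.Symbol (by
      intro ρ v hv
      have hv' : ¬ 𝔪 ≤ v.asIdeal := by simpa using hv
      exact ⟨fun h => h.2, fun h => ⟨hv', h⟩⟩)
  rw [← hS, ← hSq] at *
  refine ⟨d, h1, fun hcyc => ?_, fun S hne hcyc => ?_, h3, h4⟩
  · have h5 := h2 {1} (Set.singleton_nonempty 1) (by
      intro p _ _ P
      infer_instance)
    exact h5.trans ⟨fun h => h 1 rfl, fun h σ hσ => by rw [Set.mem_singleton_iff.1 hσ]; exact h⟩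
  · refine h2 S hne ?_
    intro p hp hp2
    rw [tors_two φ] at hp2
    have h6 : p = 2 := (Nat.prime_dvd_prime_iff_eq hp Nat.prime_two).1 hp2
    subst h6
    exact hcyc

end Pool.Agent.Results.MP_343f43_nt.ArtinClasses
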