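import Pool.Agent.J6H32.SR.Pairs
import Pool.Agent.J6H32.SR.Quad
import Pool.Agent.J6H32.SR.Defs2

/-!
# Stark units over real quadratic fields and pairs of prime ideals: a law with the constant 5/8

Let `K` be a real quadratic field, `𝔪 ≠ 𝓞 K` a nonzero ideal, `H / K` a finite abelian extension which is
unramified outside `𝔪` and infinity, for example the ray class field of `𝔪 ∞₂`, and `φ : H → ℝ` an
embedding; `∞₁` is its restriction to `K`.

`StarkUnits D φ ε` are the conditions 1, 2, 3 of Q1 for the family `ε`. The strengthened form of Q1, which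
is equivalent to Tate's rank one abelian Stark conjecture for `H / K`, asks in addition that
`H (ε ρ ^ (1/2)) / K` is abelian for all `ρ`. `StarkAtPair 𝔭 𝔮` is the version for the set of two prime
ideals `𝔭`, `𝔮`: a unit `x ≡ 1` modulo all prime ideals over `𝔭` and over `𝔮` whose absolute values are given
by the derivatives at `s = 0` of the zeta functions modified at `𝔭` and `𝔮`. It is weaker than the version
for `𝔭` alone.

Theorem. If the strengthened form of Q1 is true for `H / K` then the proportion of the pairs `(𝔭, 𝔮)` with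
`StarkAtPair 𝔭 𝔮` tends to one; if it is false then the upper limit is at most `5/8`. So if
`StarkAtPair 𝔭 𝔮` is true for more than `5/8` of all pairs, there are Stark units as in Q1.

The constant is that of Gustafson's theorem on the pairs of commuting elements of a finite group.
-/

set_option autoImplicit false

open NumberField IsDedekindDomain Filter Topology

namespace Pool.Agent.Results.MP_343f43_nt.PairsOfPrimes

open Pool.Agent.J6H32.SR

/-- `K` is a real quadratic field. -/
def RealQuadratic (K : Type) [Field K] [NumberField K] : Prop :=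
  Module.finrank ℚ K = 2 ∧ InfinitePlace.nrRealPlaces K = 2

section

variable {K H G : Type} [Field K] [NumberField K] [Field H] [NumberField H] [Algebra K H]
  [CommGroup G] [MulSemiringAction G H] {𝔪 : Ideal (𝓞 K)}

/-- Q1 for `H / K`, `𝔪` and the embedding `φ`: there are Stark units. -/
def Question (D : ZetaData K H G 𝔪) (φ : H →+* ℝ) : Prop :=
  ∃ ε : G → (𝓞 H)ˣ, StarkUnits D φ ε

/-- The strengthened form of Q1: there are Stark units `ε ρ` for which the extensions
`H (ε ρ ^ (1/2)) / K` are abelian. -/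
def Strengthened (D : ZetaData K H G 𝔪) (φ : H →+* ℝ) : Prop :=
  ∃ ε : G → (𝓞 H)ˣ, StarkUnits D φ ε ∧ ∀ ρ : G, AbelianRoot K ((ε ρ : 𝓞 H) : H) 2

end

theorem result (K H G : Type) [Field K] [NumberField K] [Field H] [NumberField H] [Algebra K H]
    [CommGroup G] [Finite G] [MulSemiringAction G H] [IsGaloisGroup G K H] (_hK : RealQuadratic K)
    (𝔪 : Ideal (𝓞 K)) (h𝔪 : 𝔪 ≠ ⊥) (_h𝔪' : 𝔪 ≠ ⊤) (D : ZetaData K H G 𝔪) (φ : H →+* ℝ) :
    (Strengthened D φ → Question D φ ∧
      Tendsto (pairProp (D.StarkAtPair (plc φ))) atTop (𝓝 1)) ∧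
    (¬ Strengthened D φ → ∀ c : ℝ, 5 / 8 < c →
      ∀ᶠ X : ℕ in atTop, pairProp (D.StarkAtPair (plc φ)) X < c) ∧
    (Strengthened D φ ↔
      ∃ c : ℝ, 5 / 8 < c ∧ ∀ᶠ X : ℕ in atTop, c ≤ pairProp (D.StarkAtPair (plc φ)) X) := by
  have hfin : {𝔭 : HeightOneSpectrum (𝓞 K) | 𝔪 ≤ 𝔭.asIdeal}.Finite := by
    refine (Ideal.finite_factors h𝔪).subset ?_
    intro 𝔭 h𝔭
    exact Ideal.dvd_iff_le.2 h𝔭
  have hS : Strengthened D φ ↔ SK K (fun ρ : G => deriv (D.zeta ρ) 0) (plc φ) := tate_iff D h𝔪 φ
  have hmain := pairs (K := K) (fun ρ : G => deriv (D.zeta ρ) 0) (plc φ) hfin.toFinset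
    (fun v hv => D.unramified v (by simpa using hv)) (fun v => D.art v.asIdeal)
    (fun v hv => D.art_frob v (by simpa using hv))
  rw [← hS] at hmain
  have h1 : Strengthened D φ → Tendsto (pairProp (D.StarkAtPair (plc φ))) atTop (𝓝 1) := hmain.1
  have h2 : ¬ Strengthened D φ → ∀ c : ℝ, 5 / 8 < c → ∀ᶠ X : ℕ in atTop,
    pairProp (D.StarkAtPair (plc φ)) X < c := hmain.2
  refine ⟨fun h => ⟨?_, h1 h⟩, h2, fun h => ?_, ?_⟩
  · obtain ⟨ε, hε, -⟩ := h
    exact ⟨ε, hε⟩
  · exact ⟨3 / 4, by norm_num, (h1 h).eventually_const_le (by norm_num)⟩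
  · rintro ⟨c, hc, hX⟩
    by_contra hcon
    obtain ⟨X, hX1, hX2⟩ := (hX.and (h2 hcon c hc)).exists
    linarith

end Pool.Agent.Results.MP_343f43_nt.PairsOfPrimes
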