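import Pool.Agent.J6H32.SR.Defs4
import Pool.Agent.J6H32.SR.RealZ

/-!
# Stark units over real quadratic fields: the parts at the prime numbers

Let `K` be a real quadratic field, `𝔪 ≠ 𝓞 K` a nonzero ideal, `H / K` a finite abelian extension which is
unramified outside `𝔪` and infinity, for example the ray class field of `𝔪 ∞₂`, and `φ : H → ℝ` an
embedding; `∞₁` is its restriction to `K`.

`PowerUnits n D φ ε` are the conditions 1, 2, 3 of Q1 for the family `ε` and the `n`-th powers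
`exp (-2 n ζ' (0, ρ))` of the numbers of the question; so `Question` is Q1. For a prime number `ℓ` let
`QuestionPart ℓ` be the part of Q1 at `ℓ`: the conditions are true for a number `n` which is not divisible
by `ℓ`. The strengthened form of Q1 asks in addition that the `H (ε ρ ^ (1/2)) / K` are abelian;
`StrengthenedPart ℓ` is its part at `ℓ`. `StarkAtPart ℓ 𝔭` is the part at `ℓ` of the version for the prime
ideal `𝔭`: a unit `x ≡ 1` modulo all prime ideals over `𝔭` whose absolute values are given by `n` times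
the derivatives at `s = 0` of the functions `ζ (s, ρ) - N𝔭^(1-s) ζ (s, σ_𝔭⁻¹ ρ)`.

Theorem. Q1 is true if and only if its parts are true for all prime numbers `ℓ`, and the same is true for
the strengthened form. For odd `ℓ` the parts of Q1 and of the strengthened form are equivalent. The part
of the strengthened form at `ℓ` is true if and only if the `𝔭` for which `StarkAtPart ℓ 𝔭` is true make up
more than the part `1 / (2 ℓ)` of all prime ideals. More precisely, either the part of Q1 at `ℓ` and all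
the `StarkAtPart ℓ 𝔭` are false, or there are a finite Galois extension `K' / K` and a finite set of prime
ideals outside of which `StarkAtPart ℓ 𝔭` is true exactly for the `𝔭` which split completely in `K'`; then
the part of the strengthened form at `ℓ` is true if and only if `K' = K`, and for `K' ≠ K` the degree of
`K'` is divisible by `ℓ` and `K' / K` is not cyclic.
-/

set_option autoImplicit false

open NumberField IsDedekindDomain Filter Topology

namespace Pool.Agent.Results.MP_343f43_nt.PrimeParts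

open Pool.Agent.J6H32.SR
open Pool.Agent.K3h30.RS (SplitsIn)

/-- `K` is a real quadratic field. -/
def RealQuadratic (K : Type) [Field K] [NumberField K] : Prop :=
  Module.finrank ℚ K = 2 ∧ InfinitePlace.nrRealPlaces K = 2

/-- The number of the prime ideals of norm at most `X` with the property `P`, divided by the number of
the prime numbers up to `X`. -/
noncomputable def proportion {K : Type} [Field K] [NumberField K]
    (P : HeightOneSpectrum (𝓞 K) → Prop) (X : ℕ) : ℝ :=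
  (Nat.card {𝔭 : HeightOneSpectrum (𝓞 K) // P 𝔭 ∧ Ideal.absNorm 𝔭.asIdeal ≤ X} : ℝ) /
    (Nat.primeCounting X : ℝ)

section

variable {K H G : Type} [Field K] [NumberField K] [Field H] [NumberField H] [Algebra K H]
  [CommGroup G] [MulSemiringAction G H] {𝔪 : Ideal (𝓞 K)}

/-- The conditions 1, 2, 3 of Q1 for the `n`-th powers of the numbers `exp (-2 ζ' (0, ρ))` and the units
`ε ρ`. -/
def PowerUnits (n : ℕ) (D : ZetaData K H G 𝔪) (φ : H →+* ℝ) (ε : G → (𝓞 H)ˣ) : Prop :=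
  (∀ ρ : G, ((φ ((ε ρ : 𝓞 H) : H) : ℝ) : ℂ) = Complex.exp (-2 * (n * deriv (D.zeta ρ) 0))) ∧
  (∀ γ ρ : G, γ • ((ε ρ : 𝓞 H) : H) = ((ε (γ * ρ) : 𝓞 H) : H)) ∧
  ∀ (ρ : G) (g : H →+* ℂ), (∃ a : K, g (algebraMap K H a) ≠ ((φ (algebraMap K H a) : ℝ) : ℂ)) →
    ‖g ((ε ρ : 𝓞 H) : H)‖ = 1

/-- Q1 for `H / K`, `𝔪` and the embedding `φ`. -/
def Question (D : ZetaData K H G 𝔪) (φ : H →+* ℝ) : Prop :=
  ∃ ε : G → (𝓞 H)ˣ, PowerUnits 1 D φ ε

/-- The part of Q1 at `ℓ`. -/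
def QuestionPart (ℓ : ℕ) (D : ZetaData K H G 𝔪) (φ : H →+* ℝ) : Prop :=
  ∃ n : ℕ, ¬ ℓ ∣ n ∧ ∃ ε : G → (𝓞 H)ˣ, PowerUnits n D φ ε

/-- The strengthened form of Q1. -/
def Strengthened (D : ZetaData K H G 𝔪) (φ : H →+* ℝ) : Prop :=
  ∃ ε : G → (𝓞 H)ˣ, PowerUnits 1 D φ ε ∧ ∀ ρ : G, AbelianRoot K ((ε ρ : 𝓞 H) : H) 2

/-- The part at `ℓ` of the strengthened form of Q1. -/
def StrengthenedPart (ℓ : ℕ) (D : ZetaData K H G 𝔪) (φ : H →+* ℝ) : Prop :=
  ∃ n : ℕ, ¬ ℓ ∣ n ∧ ∃ ε : G → (𝓞 H)ˣ, PowerUnits n D φ ε ∧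
    ∀ ρ : G, AbelianRoot K ((ε ρ : 𝓞 H) : H) 2

end

theorem result (K H G : Type) [Field K] [NumberField K] [Field H] [NumberField H] [Algebra K H]
    [CommGroup G] [Finite G] [MulSemiringAction G H] [IsGaloisGroup G K H] (_hK : RealQuadratic K)
    (𝔪 : Ideal (𝓞 K)) (h𝔪 : 𝔪 ≠ ⊥) (_h𝔪' : 𝔪 ≠ ⊤) (D : ZetaData K H G 𝔪) (φ : H →+* ℝ) :
    -- the parts
    (Question D φ ↔ ∀ ℓ : ℕ, ℓ.Prime → QuestionPart ℓ D φ) ∧
    (Strengthened D φ ↔ ∀ ℓ : ℕ, ℓ.Prime → StrengthenedPart ℓ D φ) ∧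
    ∀ ℓ : ℕ, ℓ.Prime →
      (ℓ ≠ 2 → (QuestionPart ℓ D φ ↔ StrengthenedPart ℓ D φ)) ∧
      -- more than `1 / (2 ℓ)` of the prime ideals
      (StrengthenedPart ℓ D φ ↔ ∃ c : ℝ, 1 / (2 * ℓ) < c ∧
        ∀ᶠ X : ℕ in atTop, c ≤ proportion (D.StarkAtPart (plc φ) ℓ) X) ∧
      -- the field
      ((¬ QuestionPart ℓ D φ ∧
          ∀ 𝔭 : HeightOneSpectrum (𝓞 K), ¬ D.StarkAtPart (plc φ) ℓ 𝔭) ∨
        ∃ (K' : Type) (_ : Field K') (_ : NumberField K') (_ : Algebra K K')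
          (bad : Finset (HeightOneSpectrum (𝓞 K))), IsGalois K K' ∧
          (∀ 𝔭 : HeightOneSpectrum (𝓞 K), 𝔭 ∉ bad →
            (D.StarkAtPart (plc φ) ℓ 𝔭 ↔ SplitsIn K' 𝔭)) ∧
          Tendsto (proportion (D.StarkAtPart (plc φ) ℓ)) atTop
            (𝓝 (1 / (Module.finrank K K' : ℝ))) ∧
          (StrengthenedPart ℓ D φ ↔ Module.finrank K K' = 1) ∧
          (Module.finrank K K' ≠ 1 → ℓ ∣ Module.finrank K K' ∧ ¬ IsCyclic (K' ≃ₐ[K] K'))) := by
  have hfin : {𝔭 : HeightOneSpectrum (𝓞 K) | 𝔪 ≤ 𝔭.asIdeal}.Finite := by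
    refine (Ideal.finite_factors h𝔪).subset ?_
    intro 𝔭 h𝔭
    exact Ideal.dvd_iff_le.2 h𝔭
  let z : G → ℂ := fun ρ => deriv (D.zeta ρ) 0
  have hun : ∀ v : HeightOneSpectrum (𝓞 K), v ∉ hfin.toFinset →
      Squarefree (v.asIdeal.map (algebraMap (𝓞 K) (𝓞 H))) :=
    fun v hv => D.unramified v (by simpa using hv)
  have hfr : ∀ v : HeightOneSpectrum (𝓞 K), v ∉ hfin.toFinset →
      Pool.Agent.K3h30.RS.IsFrob (H := H) v (D.art v.asIdeal) :=
    fun v hv => D.art_frob v (by simpa using hv)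
  have hreal : ∀ (n : ℕ) (ρ : G), (starRingEnd ℂ) ((n : ℂ) * z ρ) = (n : ℂ) * z ρ := by
    intro n ρ
    rw [map_mul, map_natCast]
    congr 1
    exact deriv_real D ρ
  -- the strengthened form
  have hS : ∀ n : ℕ, (∃ ε : G → (𝓞 H)ˣ, PowerUnits n D φ ε ∧
      ∀ ρ : G, AbelianRoot K ((ε ρ : 𝓞 H) : H) 2) ↔ SK K (fun ρ => (n : ℂ) * z ρ) (plc φ) :=
    fun n => zunits_iff (fun ρ => (n : ℂ) * z ρ) (hreal n) φ hfin.toFinset hun
      (fun v => D.art v.asIdeal) hfr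
  have hSp : ∀ ℓ : ℕ, StrengthenedPart ℓ D φ ↔ SL K z (plc φ) ℓ := by
    intro ℓ
    exact exists_congr fun n => and_congr_right fun _ => hS n
  have hone : ∀ ρ : G, ((1 : ℕ) : ℂ) * z ρ = z ρ := fun ρ => by rw [Nat.cast_one, one_mul]
  have hS1 : Strengthened D φ ↔ SK K z (plc φ) := by
    have h1 := hS 1
    simp only [hone] at h1
    exact h1
  -- two times
  have htwo : ∀ (ℓ : ℕ), ℓ.Prime → ℓ ≠ 2 → QuestionPart ℓ D φ → StrengthenedPart ℓ D φ := by
    rintro ℓ hℓ hℓ2 ⟨n, hn, ε, hε⟩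
    rw [hSp]
    refine ⟨2 * n, ?_, ?_⟩
    · intro h
      rcases hℓ.dvd_mul.mp h with h1 | h1
      · exact hℓ2 ((Nat.prime_dvd_prime_iff_eq hℓ Nat.prime_two).1 h1)
      · exact hn h1
    · have h1 := sk_two (K := K) (fun ρ => (n : ℂ) * z ρ) (hreal n) φ ε hε
      have h2 : (fun ρ => ((2 * n : ℕ) : ℂ) * z ρ) = fun ρ => 2 * ((n : ℂ) * z ρ) := by
        ext ρ
        push_cast
        ring
      rw [h2]
      exact h1
  have hQS : ∀ ℓ : ℕ, QuestionPart ℓ D φ → SQ K z (plc φ) := by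
    rintro ℓ ⟨n, hn, ε, hε⟩
    have h1 := rat_of_sk _ _ (sk_two (K := K) (fun ρ => (n : ℂ) * z ρ) (hreal n) φ ε hε)
    have h2 : (fun ρ => 2 * ((n : ℂ) * z ρ)) = fun ρ => ((2 * n : ℕ) : ℂ) * z ρ := by
      ext ρ
      push_cast
      ring
    rw [h2] at h1
    exact sq_mul (Nat.mul_pos two_pos (not_dvd_pos hn)) h1
  refine ⟨⟨?_, ?_⟩, ?_, fun ℓ hℓ => ⟨fun hℓ2 => ⟨htwo ℓ hℓ hℓ2, ?_⟩, ?_⟩⟩
  · rintro ⟨ε, hε⟩ ℓ hℓ
    exact ⟨1, hℓ.one_lt.ne' ∘ Nat.dvd_one.1, ε, hε⟩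
  · intro h
    obtain ⟨ε, hε⟩ := zunits_glue (K := K) z φ h
    refine ⟨ε, ?_⟩
    have h1 : ZUnits K (fun ρ => ((1 : ℕ) : ℂ) * z ρ) φ ε := by
      simp only [hone]
      exact hε
    exact h1
  · rw [hS1, sk_iff_sl (K := K) z (plc φ) hfin.toFinset hun (fun v => D.art v.asIdeal) hfr]
    exact forall_congr' fun ℓ => imp_congr_right fun _ => (hSp ℓ).symm
  · rintro ⟨n, hn, ε, hε, -⟩
    exact ⟨n, hn, ε, hε⟩
  have hmain : (¬ QuestionPart ℓ D φ ∧
          ∀ 𝔭 : HeightOneSpectrum (𝓞 K), ¬ D.StarkAtPart (plc φ) ℓ 𝔭) ∨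
        ∃ (K' : Type) (_ : Field K') (_ : NumberField K') (_ : Algebra K K')
          (bad : Finset (HeightOneSpectrum (𝓞 K))), IsGalois K K' ∧
          (∀ 𝔭 : HeightOneSpectrum (𝓞 K), 𝔭 ∉ bad →
            (D.StarkAtPart (plc φ) ℓ 𝔭 ↔ SplitsIn K' 𝔭)) ∧
          Tendsto (proportion (D.StarkAtPart (plc φ) ℓ)) atTop
            (𝓝 (1 / (Module.finrank K K' : ℝ))) ∧
          (SL K z (plc φ) ℓ ↔ Module.finrank K K' = 1) ∧
          (IsCyclic (K' ≃ₐ[K] K') → Module.finrank K K' = 1) ∧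
          (Module.finrank K K' = 1 ∨
            (ℓ ∣ Module.finrank K K' ∧ 2 * ℓ ≤ Module.finrank K K')) := by
    by_cases hQ : SQ K z (plc φ)
    · exact Or.inr (ell_main (K := K) z (plc φ) hfin.toFinset hun (fun v => D.art v.asIdeal) hfr
        hQ ℓ hℓ)
    · exact Or.inl ⟨fun h => hQ (hQS ℓ h),
        fun 𝔭 h => hQ (rat_of_tl _ _ ℓ (D.art 𝔭.asIdeal) 𝔭 h)⟩
  have hℓ0 : (0 : ℝ) < ℓ := by exact_mod_cast hℓ.pos
  have hℓ2 : (2 : ℝ) ≤ ℓ := by exact_mod_cast hℓ.two_le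
  constructor
  · rcases hmain with ⟨h1, h2⟩ | ⟨K', _, _, _, bad, -, -, h3, h4, -, h5⟩
    · constructor
      · rintro ⟨n, hn, ε, hε, -⟩
        exact absurd ⟨n, hn, ε, hε⟩ h1
      · rintro ⟨c, hc, hX⟩
        exfalso
        obtain ⟨X, hX⟩ := hX.exists
        have h3 : IsEmpty {𝔭 : HeightOneSpectrum (𝓞 K) //
            D.StarkAtPart (plc φ) ℓ 𝔭 ∧ Ideal.absNorm 𝔭.asIdeal ≤ X} := ⟨fun x => h2 x.1 x.2.1⟩
        unfold proportion at hX
        rw [Nat.card_of_isEmpty, Nat.cast_zero, zero_div] at hX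
        have h4 : (0 : ℝ) < 1 / (2 * ℓ) := by positivity
        linarith
    · rw [hSp, h4]
      have h6 : (1 : ℝ) / (2 * ℓ) ≤ 1 / 4 := by
        apply one_div_le_one_div_of_le (by norm_num)
        linarith
      constructor
      · intro h
        rw [h, Nat.cast_one, div_one] at h3
        exact ⟨1 / 2, by linarith, h3.eventually_const_le (by norm_num)⟩
      · rintro ⟨c, hc, hX⟩
        rcases h5 with h5 | ⟨-, h5⟩
        · exact h5
        · exfalso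
          have h6 := ge_of_tendsto h3 hX
          have h7 : (1 : ℝ) / (Module.finrank K K' : ℝ) ≤ 1 / (2 * ℓ) := by
            apply one_div_le_one_div_of_le (by positivity)
            exact_mod_cast h5
          linarith
  · rcases hmain with h | ⟨K', i1, i2, i3, bad, h1, h2, h3, h4, h5, h6⟩
    · exact Or.inl h
    · refine Or.inr ⟨K', i1, i2, i3, bad, h1, h2, h3, (hSp ℓ).trans h4,
        fun h7 => ⟨?_, fun h8 => h7 (h5 h8)⟩⟩
      rcases h6 with h6 | h6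
      · exact absurd h6 h7
      · exact h6.1

end Pool.Agent.Results.MP_343f43_nt.PrimeParts
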