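import Pool.Agent.J6H32.SR.Quad

/-!
# Stark units over real quadratic fields and a quarter of the prime ideals

Let `K` be a real quadratic field, `𝔪 ≠ 𝓞 K` a nonzero ideal, `H / K` a finite abelian extension which is
unramified outside `𝔪` and infinity, for example the ray class field of `𝔪 ∞₂`, and `φ : H → ℝ` an
embedding; `∞₁` is its restriction to `K`.

`StarkUnits D φ ε` are the conditions 1, 2, 3 of Q1 for the family `ε`. The strengthened form of Q1, which
is equivalent to Tate's rank one abelian Stark conjecture for `H / K`, asks in addition that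
`H (ε ρ ^ (1/2)) / K` is abelian for all `ρ`. `StarkAt 𝔭` is the version for a prime ideal `𝔭`: a unit
`x ≡ 1` modulo all prime ideals over `𝔭` whose absolute values are given by the derivatives at `s = 0` of
the functions `ζ (s, ρ) - N𝔭^(1-s) ζ (s, σ_𝔭⁻¹ ρ)`.

Theorem. The strengthened form of Q1 is true for `H / K` if and only if the `𝔭` for which `StarkAt 𝔭` is
true make up more than a quarter of all prime ideals. So in this case there are Stark units as in Q1.
More precisely, either there are no Stark units as in Q1 and all the `StarkAt 𝔭` are false, or there are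
a finite Galois extension `K' / K` and a finite set of prime ideals outside of which `StarkAt 𝔭` is
true exactly for the `𝔭` which split completely in `K'`; then the strengthened form is true if and only
if `K' = K`, and `K' / K` is not cyclic for `K' ≠ K`.
-/

set_option autoImplicit false

open NumberField IsDedekindDomain Filter Topology

namespace Pool.Agent.Results.MP_343f43_nt.QuarterOfPrimes

open Pool.Agent.J6H32.SR
open Pool.Agent.K3h30.RS (SplitsIn)

/-- `K` is a real quadratic field. -/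
def RealQuadratic (K : Type) [Field K] [NumberField K] : Prop :=
  Module.finrank ℚ K = 2 ∧ InfinitePlace.nrRealPlaces K = 2

/-- The number of the prime ideals of norm at most `X` with the property `P`, divided by the number of
the prime numbers up to `X`. -/
noncomputable def proportion {K : Type} [Field K] [NumberField K]
    (P : HeightOneSpectrum (𝓞 K) → Prop) (X : ℕ) : ℝ :=
  (Nat.card {𝔭 : HeightOneSpectrum (𝓞 K) // P 𝔭 ∧ Ideal.absNorm 𝔭.asIdeal ≤ X} : ℝ) /
    (Nat.primeCounting X : ℝ)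

section

variable {K H G : Type} [Field K] [NumberField K] [Field H] [NumberField H] [Algebra K H]
  [CommGroup G] [MulSemiringAction G H] {𝔪 : Ideal (𝓞 K)}

/-- Q1 for `H / K`, `𝔪` and the embedding `φ`: there are Stark units. -/
def Question (D : ZetaData K H G 𝔪) (φ : H →+* ℝ) : Prop :=
  ∃ ε : G → (𝓞 H)ˣ, StarkUnits D φ ε

/-- The strengthened form of Q1: there are Stark units `ε ρ` for which the extensions
`H (ε ρ ^ (1/2)) / K` are abelian. -/
def Strengthened (D : ZetaData K H G 𝔪) (φ : H →+* ℝ) : Prop :=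
  ∃ ε : G → (𝓞 H)ˣ, StarkUnits D φ ε ∧ ∀ ρ : G, AbelianRoot K ((ε ρ : 𝓞 H) : H) 2

end

theorem result (K H G : Type) [Field K] [NumberField K] [Field H] [NumberField H] [Algebra K H]
    [CommGroup G] [Finite G] [MulSemiringAction G H] [IsGaloisGroup G K H] (_hK : RealQuadratic K)
    (𝔪 : Ideal (𝓞 K)) (h𝔪 : 𝔪 ≠ ⊥) (_h𝔪' : 𝔪 ≠ ⊤) (D : ZetaData K H G 𝔪) (φ : H →+* ℝ) :
    -- more than a quarter of the prime ideals
    (Strengthened D φ ↔
      ∃ c : ℝ, 1 / 4 < c ∧ ∀ᶠ X : ℕ in atTop, c ≤ proportion (D.StarkAt (plc φ)) X) ∧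
    -- the field
    ((¬ Question D φ ∧ ∀ 𝔭 : HeightOneSpectrum (𝓞 K), ¬ D.StarkAt (plc φ) 𝔭) ∨
      ∃ (K' : Type) (_ : Field K') (_ : NumberField K') (_ : Algebra K K')
        (bad : Finset (HeightOneSpectrum (𝓞 K))), IsGalois K K' ∧
        (∀ 𝔭 : HeightOneSpectrum (𝓞 K), 𝔭 ∉ bad → (D.StarkAt (plc φ) 𝔭 ↔ SplitsIn K' 𝔭)) ∧
        Tendsto (proportion (D.StarkAt (plc φ))) atTop (𝓝 (1 / (Module.finrank K K' : ℝ))) ∧
        (Strengthened D φ ↔ Module.finrank K K' = 1) ∧
        (IsCyclic (K' ≃ₐ[K] K') → Module.finrank K K' = 1)) := by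
  have hfin : {𝔭 : HeightOneSpectrum (𝓞 K) | 𝔪 ≤ 𝔭.asIdeal}.Finite := by
    refine (Ideal.finite_factors h𝔪).subset ?_
    intro 𝔭 h𝔭
    exact Ideal.dvd_iff_le.2 h𝔭
  have hS : Strengthened D φ ↔ SK K (fun ρ : G => deriv (D.zeta ρ) 0) (plc φ) := tate_iff D h𝔪 φ
  have hQS : Question D φ → SQ K (fun ρ : G => deriv (D.zeta ρ) 0) (plc φ) := by
    rintro ⟨ε, hε⟩
    obtain ⟨u, -, hu, hz⟩ := z_of_units D φ ε hε
    refine ⟨u, 2, by norm_num, hu, fun ρ => ?_⟩
    simp only [hz ρ]
    push_cast
    ring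
  have hmain : (¬ Question D φ ∧ ∀ 𝔭 : HeightOneSpectrum (𝓞 K), ¬ D.StarkAt (plc φ) 𝔭) ∨
      ∃ (K' : Type) (_ : Field K') (_ : NumberField K') (_ : Algebra K K')
        (bad : Finset (HeightOneSpectrum (𝓞 K))), IsGalois K K' ∧
        (∀ 𝔭 : HeightOneSpectrum (𝓞 K), 𝔭 ∉ bad → (D.StarkAt (plc φ) 𝔭 ↔ SplitsIn K' 𝔭)) ∧
        Tendsto (proportion (D.StarkAt (plc φ))) atTop (𝓝 (1 / (Module.finrank K K' : ℝ))) ∧
        (Strengthened D φ ↔ Module.finrank K K' = 1) ∧
        (IsCyclic (K' ≃ₐ[K] K') → Module.finrank K K' = 1) ∧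
        (Module.finrank K K' = 1 ∨ 4 ≤ Module.finrank K K') := by
    by_cases hq : SQ K (fun ρ : G => deriv (D.zeta ρ) 0) (plc φ)
    · right
      rw [hS]
      exact main_of_sq (K := K) (fun ρ : G => deriv (D.zeta ρ) 0) (plc φ) hfin.toFinset
        (fun v hv => D.unramified v (by simpa using hv)) (fun v => D.art v.asIdeal)
        (fun v hv => D.art_frob v (by simpa using hv)) hq
    · left
      exact ⟨fun h => hq (hQS h), fun 𝔭 h => hq (rat_of_ts _ _ (D.art 𝔭.asIdeal) 𝔭 h)⟩
  constructor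
  · rcases hmain with ⟨h1, h2⟩ | ⟨K', _, _, _, bad, -, -, h3, h4, -, h5⟩
    · constructor
      · rintro ⟨ε, hε, -⟩
        exact absurd ⟨ε, hε⟩ h1
      · rintro ⟨c, hc, hX⟩
        exfalso
        obtain ⟨X, hX⟩ := hX.exists
        have h3 : IsEmpty {𝔭 : HeightOneSpectrum (𝓞 K) //
            D.StarkAt (plc φ) 𝔭 ∧ Ideal.absNorm 𝔭.asIdeal ≤ X} := ⟨fun x => h2 x.1 x.2.1⟩
        unfold proportion at hX
        rw [Nat.card_of_isEmpty, Nat.cast_zero, zero_div] at hX
        linarith
    · rw [h4]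
      constructor
      · intro h
        rw [h, Nat.cast_one, div_one] at h3
        exact ⟨1 / 2, by norm_num, h3.eventually_const_le (by norm_num)⟩
      · rintro ⟨c, hc, hX⟩
        rcases h5 with h5 | h5
        · exact h5
        · exfalso
          have h6 := ge_of_tendsto h3 hX
          have h7 : (1 : ℝ) / (Module.finrank K K' : ℝ) ≤ 1 / 4 := by
            apply one_div_le_one_div_of_le (by norm_num)
            exact_mod_cast h5
          linarith
  · rcases hmain with h | ⟨K', i1, i2, i3, bad, h1, h2, h3, h4, h5, -⟩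
    · exact Or.inl h
    · exact Or.inr ⟨K', i1, i2, i3, bad, h1, h2, h3, h4, h5⟩

end Pool.Agent.Results.MP_343f43_nt.QuarterOfPrimes
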